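import Pool.Agent.Run7.h148.AX.Stm2

/-!
Project AX (MP_09540e_an), piece WST: structure of the wave up to order `-1`.
-/

set_option autoImplicit false

open MeasureTheory Set Filter Topology
open scoped ENNReal ContDiff FourierTransform

namespace Run7.h495.AX

open Pool.Agent.Run7.h148.AX

theorem contDiff_coord {A : E3 → E3} (hA : ContDiff ℝ ∞ A) (k : Fin 3) :
    ContDiff ℝ ∞ (fun x => A x k) := (contDiff_euclidean.1 hA) k

theorem contDiff_pd {f : E3 → ℝ} (hf : ContDiff ℝ ∞ f) (j : Fin 3) : ContDiff ℝ ∞ (pd j f) := by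
  have h1 : ContDiff ℝ ∞ (fderiv ℝ f) := hf.fderiv_right (by norm_cast)
  exact h1.clm_apply contDiff_const

theorem hcs_pd {f : E3 → ℝ} (hf : HasCompactSupport f) (j : Fin 3) :
    HasCompactSupport (pd j f) := by
  have h1 : HasCompactSupport (fderiv ℝ f) := hf.fderiv (𝕜 := ℝ)
  exact h1.comp_left (g := fun L : E3 →L[ℝ] ℝ => L (EuclideanSpace.single j 1)) (by simp)

theorem cc_pd {f : E3 → ℝ} (hf : Cc f) (j : Fin 3) : Cc (pd j f) :=
  ⟨contDiff_pd hf.1 j, hcs_pd hf.2 j⟩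

theorem cc_add {f g : E3 → ℝ} (hf : Cc f) (hg : Cc g) : Cc (fun x => f x + g x) :=
  ⟨hf.1.add hg.1, hf.2.add hg.2⟩

theorem cc_neg {f : E3 → ℝ} (hf : Cc f) : Cc (fun x => -f x) :=
  ⟨hf.1.neg, hf.2.comp_left (g := fun y : ℝ => -y) (by simp)⟩

theorem cc_sub {f g : E3 → ℝ} (hf : Cc f) (hg : Cc g) : Cc (fun x => f x - g x) := by
  have := cc_add hf (cc_neg hg)
  simpa [sub_eq_add_neg] using this

theorem cc_zero : Cc (fun _ => (0 : ℝ)) := ⟨contDiff_const, HasCompactSupport.zero⟩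

theorem cc_mul_left {f g : E3 → ℝ} (hf : ContDiff ℝ ∞ f) (hg : Cc g) : Cc (fun x => f x * g x) :=
  ⟨hf.mul hg.1, hg.2.mul_left⟩

theorem cc_mul_right {f g : E3 → ℝ} (hf : Cc f) (hg : ContDiff ℝ ∞ g) : Cc (fun x => f x * g x) :=
  ⟨hf.1.mul hg, hf.2.mul_right⟩

theorem cc_sum {f : Fin 3 → E3 → ℝ} (hf : ∀ i, Cc (f i)) : Cc (fun x => ∑ i, f i x) := by
  simp only [Fin.sum_univ_three]
  exact cc_add (cc_add (hf 0) (hf 1)) (hf 2)

theorem cc_ite {f : E3 → ℝ} (hf : Cc f) (p : Prop) [Decidable p] :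
    Cc (fun x => if p then f x else 0) := by
  by_cases h : p
  · simpa [h] using hf
  · simpa [h] using cc_zero

theorem cc_coord {A : E3 → E3} (hA : ContDiff ℝ ∞ A) (hc : HasCompactSupport A) (k : Fin 3) :
    Cc (fun x => A x k) :=
  ⟨contDiff_coord hA k, hc.comp_left (g := fun v : E3 => v k) (by simp)⟩

theorem pd_const_mul {f : E3 → ℝ} (hf : ContDiff ℝ ∞ f) (c : ℝ) (i : Fin 3) (x : E3) :
    pd i (fun y => c * f y) x = c * pd i f x := by
  have hd : DifferentiableAt ℝ f x := hf.contDiffAt.differentiableAt (by simp)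
  unfold pd
  rw [fderiv_const_mul hd]
  simp

theorem pd_add {f g : E3 → ℝ} (hf : ContDiff ℝ ∞ f) (hg : ContDiff ℝ ∞ g) (i : Fin 3) (x : E3) :
    pd i (fun y => f y + g y) x = pd i f x + pd i g x := by
  have hd : DifferentiableAt ℝ f x := hf.contDiffAt.differentiableAt (by simp)
  have hd' : DifferentiableAt ℝ g x := hg.contDiffAt.differentiableAt (by simp)
  unfold pd
  rw [show (fun y => f y + g y) = f + g from rfl, fderiv_add hd hd']
  simp

theorem cc_dvA {A : E3 → E3} (hA : ContDiff ℝ ∞ A) (hc : HasCompactSupport A) : Cc (dvA A) :=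
  cc_sum (fun j => cc_pd (cc_coord hA hc j) j)

theorem cc_FA {A : E3 → E3} (hA : ContDiff ℝ ∞ A) (hc : HasCompactSupport A) (k : Fin 3) :
    Cc (FA A k) := by
  have h1 : Cc (fun x => ∑ j, A x j * pd j (fun y => A y k) x) :=
    cc_sum (fun j => cc_mul_left (contDiff_coord hA j) (cc_pd (cc_coord hA hc k) j))
  have h2 : Cc (fun x => dvA A x * A x k) :=
    cc_mul_right (cc_dvA hA hc) (contDiff_coord hA k)
  exact cc_sub h1 h2

theorem pd_Hc (ν : ℝ) {A : E3 → E3} (hA : ContDiff ℝ ∞ A) (i k : Fin 3) (n : ℕ) (t : ℝ) (x : E3) :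
    pd i (Hc ν A k n t) x = NN n * Real.exp (-ta ν n t) * pd i (fun y => A y k) x := by
  have := pd_const_mul (contDiff_coord hA k) (NN n * Real.exp (-ta ν n t)) i x
  exact this

theorem pd_Hs (ν : ℝ) {A V : E3 → E3} (hA : ContDiff ℝ ∞ A) (hV : ContDiff ℝ ∞ V) (i k : Fin 3)
    (n : ℕ) (t : ℝ) (x : E3) :
    pd i (Hs ν A V k n t) x = -2 * Real.exp (-ta ν n t) *
      (ta ν n t * pd i (pd 2 fun y => A y k) x
        + 1 / (4 * ν) * Real.exp (-(2 * ta ν n t)) * pd i (fun y => V y 2 * A y k) x) := by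
  have hp : ContDiff ℝ ∞ (pd 2 fun y => A y k) := contDiff_pd (contDiff_coord hA k) 2
  have hq : ContDiff ℝ ∞ (fun y => V y 2 * A y k) :=
    (contDiff_coord hV 2).mul (contDiff_coord hA k)
  have hp' : ContDiff ℝ ∞ (fun y => ta ν n t * pd 2 (fun y => A y k) y) := contDiff_const.mul hp
  have hq' : ContDiff ℝ ∞ (fun y => 1 / (4 * ν) * Real.exp (-(2 * ta ν n t)) * (V y 2 * A y k)) :=
    contDiff_const.mul hq
  have h0 := pd_const_mul (hp'.add hq') (-2 * Real.exp (-ta ν n t)) i x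
  have h1 := pd_add hp' hq' i x
  have h2 := pd_const_mul hp (ta ν n t) i x
  have h3 := pd_const_mul hq (1 / (4 * ν) * Real.exp (-(2 * ta ν n t))) i x
  calc pd i (Hs ν A V k n t) x = _ := h0
    _ = _ := by
      rw [show pd i (fun y => ta ν n t * pd 2 (fun y => A y k) y
        + 1 / (4 * ν) * Real.exp (-(2 * ta ν n t)) * (V y 2 * A y k)) x = _ from h1, h2, h3]

theorem pd_Hk (ν : ℝ) {A : E3 → E3} (hA : ContDiff ℝ ∞ A) (hc : HasCompactSupport A) (i k : Fin 3)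
    (n : ℕ) (t : ℝ) (x : E3) :
    pd i (Hk ν A k n t) x = -(1 / (4 * ν)) * Real.exp (-(2 * ta ν n t)) * pd i (FA A k) x := by
  have := pd_const_mul (cc_FA hA hc k).1 (-(1 / (4 * ν)) * Real.exp (-(2 * ta ν n t))) i x
  exact this

theorem NN_pos (n : ℕ) : 0 < NN n := by unfold NN; positivity

theorem t_WST : S_WST := by
  intro ν A V hν hAdm hV k
  obtain ⟨hA, hcA, -, -⟩ := hAdm
  set ρ1 : E3 → ℝ := fun x => pd 2 (pd 2 fun y => A y k) x
    - if k = 2 then ∑ i, pd i (pd 2 fun y => A y i) x else 0 with hρ1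
  set ρ2 : E3 → ℝ := fun x => pd 2 (fun y => V y 2 * A y k) x
    - if k = 2 then ∑ i, pd i (fun y => V y 2 * A y i) x else 0 with hρ2
  set ρ3 : E3 → ℝ := fun x => pd 2 (FA A k) x
    - if k = 2 then ∑ i, pd i (FA A i) x else 0 with hρ3
  have c1 : Cc ρ1 := cc_sub (cc_pd (cc_pd (cc_coord hA hcA k) 2) 2)
    (cc_ite (cc_sum fun i => cc_pd (cc_pd (cc_coord hA hcA i) 2) i) _)
  have c2 : Cc ρ2 := cc_sub (cc_pd (cc_mul_left (contDiff_coord hV 2) (cc_coord hA hcA k)) 2)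
    (cc_ite (cc_sum fun i => cc_pd (cc_mul_left (contDiff_coord hV 2) (cc_coord hA hcA i)) i) _)
  have c3 : Cc ρ3 := cc_sub (cc_pd (cc_FA hA hcA k) 2)
    (cc_ite (cc_sum fun i => cc_pd (cc_FA hA hcA i) i) _)
  have key : (ww ν A V k - Tc ν 1 0 1 1 (fun x => A x k) + (2 : ℝ) • Ts ν 0 1 1 1 (pd 2 fun y => A y k)
    + (1 / (2 * ν)) • Ts ν 0 0 3 1 (fun x => V x 2 * A x k)
    + (1 / (4 * ν)) • Tc ν 0 0 2 2 (FA A k)
    - Ts ν 0 0 1 1 (fun x => pd 2 (fun y => A y k) x - if k = 2 then dvA A x else 0))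
    = (2 : ℝ) • Tc ν (-1) 1 1 1 ρ1 + (1 / (2 * ν)) • Tc ν (-1) 0 3 1 ρ2
      - (1 / (8 * ν)) • Ts ν (-1) 0 2 2 ρ3 := by
    funext n t x
    have hN : NN n ≠ 0 := (NN_pos n).ne'
    have e3 : Real.exp (-(3 * ta ν n t)) = Real.exp (-ta ν n t) * Real.exp (-(2 * ta ν n t)) := by
      rw [← Real.exp_add]; ring_nf
    simp only [Pi.add_apply, Pi.sub_apply, Pi.smul_apply, smul_eq_mul, ww, bc, bs, Tc, Ts, dvx,
      pd_Hc ν hA, pd_Hs ν hA hV, pd_Hk ν hA hcA, dvA, hρ1, hρ2, hρ3, Fin.sum_univ_three]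
    simp only [Hc, Hs, Hk]
    push_cast
    simp only [zpow_one, zpow_zero, zpow_neg_one, pow_zero, pow_one, one_mul, mul_one, e3]
    by_cases hk : k = 2
    · simp only [hk, if_true]
      field_simp
      ring
    · simp only [hk, if_false]
      field_simp
      ring
  rw [key]
  have g1 : Tc ν (-1) 1 1 1 ρ1 ∈ OO ν (-1) :=
    Submodule.subset_span ⟨-1, 1, 1, 1, ρ1, le_rfl, le_rfl, c1, Or.inl rfl⟩
  have g2 : Tc ν (-1) 0 3 1 ρ2 ∈ OO ν (-1) :=
    Submodule.subset_span ⟨-1, 0, 3, 1, ρ2, le_rfl, by norm_num, c2, Or.inl rfl⟩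
  have g3 : Ts ν (-1) 0 2 2 ρ3 ∈ OO ν (-1) :=
    Submodule.subset_span ⟨-1, 0, 2, 2, ρ3, le_rfl, by norm_num, c3, Or.inr rfl⟩
  exact Submodule.sub_mem _ (Submodule.add_mem _ (Submodule.smul_mem _ _ g1)
    (Submodule.smul_mem _ _ g2)) (Submodule.smul_mem _ _ g3)

end Run7.h495.AX
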