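import Pool.Agent.Run7.h148.AX.Stm2
import Pool.Agent.Run7.h495.AX.WST

/-!
Project AX (MP_09540e_an), piece RS1: linear part of the residual.
-/

set_option autoImplicit false

open MeasureTheory Set Filter Topology
open scoped ENNReal ContDiff FourierTransform

namespace Run7.h495.AX

open Pool.Agent.Run7.h148.AX

/-- smooth families -/
def SF (f : Fam) : Prop := ∀ n, ContDiff ℝ ∞ fun z : ℝ × E3 => f n z.1 z.2

theorem SF.space {f : Fam} (hf : SF f) (n : ℕ) (t : ℝ) : ContDiff ℝ ∞ (f n t) := by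
  have : ContDiff ℝ ∞ (fun x : E3 => ((t, x) : ℝ × E3)) := contDiff_const.prodMk contDiff_id
  exact (hf n).comp this

theorem SF.time {f : Fam} (hf : SF f) (n : ℕ) (x : E3) : ContDiff ℝ ∞ (fun s => f n s x) := by
  have : ContDiff ℝ ∞ (fun s : ℝ => ((s, x) : ℝ × E3)) := contDiff_id.prodMk contDiff_const
  exact (hf n).comp this

theorem SF.add {f g : Fam} (hf : SF f) (hg : SF g) : SF (f + g) := fun n => (hf n).add (hg n)

theorem SF.smul {f : Fam} (hf : SF f) (c : ℝ) : SF (c • f) := fun n =>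
  (contDiff_const (c := c)).mul (hf n)

theorem dx_add {f g : Fam} (hf : SF f) (hg : SF g) (i : Fin 3) :
    dx i (f + g) = dx i f + dx i g := by
  funext n t x
  exact Run7.h495.AX.pd_add (hf.space n t) (hg.space n t) i x

theorem dx_smul {f : Fam} (hf : SF f) (c : ℝ) (i : Fin 3) :
    dx i (c • f) = c • dx i f := by
  funext n t x
  exact pd_const_mul (hf.space n t) c i x

theorem dtm_add {f g : Fam} (hf : SF f) (hg : SF g) : dtm (f + g) = dtm f + dtm g := by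
  funext n t x
  have hd : DifferentiableAt ℝ (fun s => f n s x) t :=
    (hf.time n x).contDiffAt.differentiableAt (by simp)
  have hd' : DifferentiableAt ℝ (fun s => g n s x) t :=
    (hg.time n x).contDiffAt.differentiableAt (by simp)
  exact deriv_add hd hd'

theorem dtm_smul {f : Fam} (hf : SF f) (c : ℝ) : dtm (c • f) = c • dtm f := by
  funext n t x
  have hd : DifferentiableAt ℝ (fun s => f n s x) t :=
    (hf.time n x).contDiffAt.differentiableAt (by simp)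
  exact deriv_const_mul c hd

theorem sf_of_mem (h2 : S_OC2) {ν : ℝ} {p : ℤ} {f : Fam} (hf : f ∈ OO ν p) : SF f :=
  (h2 ν p f hf).1

theorem dx_mem (h1 : S_OC1) (h2 : S_OC2) {ν : ℝ} {p : ℤ} {f : Fam} (hf : f ∈ OO ν p) (i : Fin 3) :
    dx i f ∈ OO ν (p + 1) := by
  obtain ⟨-, -, a0, a1, a2, -⟩ := h2 ν p f hf
  have hm : OO ν p ≤ OO ν (p + 1) := h1.1 ν p (p + 1) (by omega)
  fin_cases i
  · exact hm a0
  · exact hm a1
  · exact a2

theorem dtm_mem (h2 : S_OC2) {ν : ℝ} {p : ℤ} {f : Fam} (hf : f ∈ OO ν p) :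
    dtm f ∈ OO ν (p + 2) := (h2 ν p f hf).2.2.2.2.2

/-- the heat operator on families -/
noncomputable def Lo (ν : ℝ) (f : Fam) : Fam := fun n t x =>
  dtm f n t x - ν * (∑ j, dx j (dx j f) n t x)

theorem Lo_eq (ν : ℝ) (f : Fam) :
    Lo ν f = dtm f - ν • (dx 0 (dx 0 f) + dx 1 (dx 1 f) + dx 2 (dx 2 f)) := by
  funext n t x
  simp only [Lo, Fin.sum_univ_three, Pi.sub_apply, Pi.smul_apply, Pi.add_apply, smul_eq_mul]

theorem Lo_mem (h1 : S_OC1) (h2 : S_OC2) {ν : ℝ} {p : ℤ} {f : Fam} (hf : f ∈ OO ν p) :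
    Lo ν f ∈ OO ν (p + 2) := by
  have hd : ∀ i, dx i (dx i f) ∈ OO ν (p + 2) := fun i => by
    have := dx_mem h1 h2 (dx_mem h1 h2 hf i) i
    rwa [show p + 1 + 1 = p + 2 by ring] at this
  rw [Lo_eq]
  exact Submodule.sub_mem _ (dtm_mem h2 hf) (Submodule.smul_mem _ _
    (Submodule.add_mem _ (Submodule.add_mem _ (hd 0) (hd 1)) (hd 2)))

theorem Lo_add (h1 : S_OC1) (h2 : S_OC2) {ν : ℝ} {p : ℤ} {f g : Fam} (hf : f ∈ OO ν p)
    (hg : g ∈ OO ν p) : Lo ν (f + g) = Lo ν f + Lo ν g := by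
  have sf := sf_of_mem h2 hf
  have sg := sf_of_mem h2 hg
  have e : ∀ i, dx i (dx i (f + g)) = dx i (dx i f) + dx i (dx i g) := fun i => by
    rw [dx_add sf sg, dx_add (sf_of_mem h2 (dx_mem h1 h2 hf i)) (sf_of_mem h2 (dx_mem h1 h2 hg i))]
  rw [Lo_eq, Lo_eq, Lo_eq, dtm_add sf sg, e, e, e]
  simp only [smul_add]
  abel

theorem Lo_smul (h1 : S_OC1) (h2 : S_OC2) {ν : ℝ} {p : ℤ} {f : Fam} (hf : f ∈ OO ν p) (c : ℝ) :
    Lo ν (c • f) = c • Lo ν f := by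
  have sf := sf_of_mem h2 hf
  have e : ∀ i, dx i (dx i (c • f)) = c • dx i (dx i f) := fun i => by
    rw [dx_smul sf, dx_smul (sf_of_mem h2 (dx_mem h1 h2 hf i))]
  rw [Lo_eq, Lo_eq, dtm_smul sf, e, e, e]
  funext n t x
  simp only [Pi.sub_apply, Pi.smul_apply, Pi.add_apply, smul_eq_mul]
  ring

/-- Laplacian -/
noncomputable def lap (ρ : E3 → ℝ) : E3 → ℝ := fun y => ∑ i, pd i (pd i ρ) y

theorem cc_lap {ρ : E3 → ℝ} (h : Cc ρ) : Cc (lap ρ) := cc_sum fun i => cc_pd (cc_pd h i) i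

theorem Lo_Tc (hL : S_LIN) (ν : ℝ) (q : ℤ) (l j : ℕ) (k : ℤ) {ρ : E3 → ℝ} (h : Cc ρ) :
    Lo ν (Tc ν q l j k ρ) = (ν * l) • Tc ν (q + 2) (l - 1) j k ρ
      + (ν * (k ^ 2 - j)) • Tc ν (q + 2) l j k ρ + (2 * ν * k) • Ts ν (q + 1) l j k (pd 2 ρ)
      - ν • Tc ν q l j k (lap ρ) := by
  funext n t x
  exact (hL ν q l j k ρ h n t x).1

theorem Lo_Ts (hL : S_LIN) (ν : ℝ) (q : ℤ) (l j : ℕ) (k : ℤ) {ρ : E3 → ℝ} (h : Cc ρ) :
    Lo ν (Ts ν q l j k ρ) = (ν * l) • Ts ν (q + 2) (l - 1) j k ρ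
      + (ν * (k ^ 2 - j)) • Ts ν (q + 2) l j k ρ - (2 * ν * k) • Tc ν (q + 1) l j k (pd 2 ρ)
      - ν • Ts ν q l j k (lap ρ) := by
  funext n t x
  exact (hL ν q l j k ρ h n t x).2

theorem Tc_mem (ν : ℝ) {q p : ℤ} (hq : q ≤ p) (l : ℕ) {j : ℕ} (hj : 1 ≤ j) (k : ℤ) {ρ : E3 → ℝ}
    (h : Cc ρ) : Tc ν q l j k ρ ∈ OO ν p :=
  Submodule.subset_span ⟨q, l, j, k, ρ, hq, hj, h, Or.inl rfl⟩

theorem Ts_mem (ν : ℝ) {q p : ℤ} (hq : q ≤ p) (l : ℕ) {j : ℕ} (hj : 1 ≤ j) (k : ℤ) {ρ : E3 → ℝ}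
    (h : Cc ρ) : Ts ν q l j k ρ ∈ OO ν p :=
  Submodule.subset_span ⟨q, l, j, k, ρ, hq, hj, h, Or.inr rfl⟩

theorem t_RS1 (h1 : S_OC1) (h2 : S_OC2) (hL : S_LIN) (hW : S_WST) : S_RS1 := by
  intro ν A V hν hAdm hV k
  have hW' := hW ν A V hν hAdm hV k
  obtain ⟨hA, hcA, -, -⟩ := hAdm
  set T1 := Tc ν 1 0 1 1 (fun x => A x k) with hT1
  set T2 := Ts ν 0 1 1 1 (pd 2 fun y => A y k) with hT2
  set T3 := Ts ν 0 0 3 1 (fun x => V x 2 * A x k) with hT3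
  set T4 := Tc ν 0 0 2 2 (FA A k) with hT4
  set σ : E3 → ℝ := fun x => pd 2 (fun y => A y k) x - if k = 2 then dvA A x else 0 with hσ
  set T5 := Ts ν 0 0 1 1 σ with hT5
  set r := ww ν A V k - T1 + (2 : ℝ) • T2 + (1 / (2 * ν)) • T3 + (1 / (4 * ν)) • T4 - T5 with hr
  have ca : Cc (fun x => A x k) := cc_coord hA hcA k
  have cp : Cc (pd 2 fun y => A y k) := cc_pd ca 2
  have cv : Cc (fun x => V x 2 * A x k) := cc_mul_left (contDiff_coord hV 2) ca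
  have cf : Cc (FA A k) := cc_FA hA hcA k
  have cs : Cc σ := cc_sub cp (cc_ite (cc_dvA hA hcA) _)
  have m1 : T1 ∈ OO ν 1 := Tc_mem ν le_rfl 0 le_rfl 1 ca
  have m2 : T2 ∈ OO ν 1 := Ts_mem ν (by norm_num) 1 le_rfl 1 cp
  have m3 : T3 ∈ OO ν 1 := Ts_mem ν (by norm_num) 0 (by norm_num) 1 cv
  have m4 : T4 ∈ OO ν 1 := Tc_mem ν (by norm_num) 0 (by norm_num) 2 cf
  have m5 : T5 ∈ OO ν 1 := Ts_mem ν (by norm_num) 0 le_rfl 1 cs
  have mr : r ∈ OO ν 1 := h1.1 ν (-1) 1 (by norm_num) hW'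
  have hr' : Lo ν r ∈ OO ν 1 := by
    have := Lo_mem h1 h2 hW'
    simpa using this
  have hw : ww ν A V k = ((((T1 + (-2 : ℝ) • T2) + (-(1 / (2 * ν))) • T3)
      + (-(1 / (4 * ν))) • T4) + T5) + r := by
    rw [hr]
    funext n t x
    simp only [Pi.add_apply, Pi.sub_apply, Pi.smul_apply, smul_eq_mul]
    ring
  have n2 := Submodule.smul_mem (OO ν 1) (-2 : ℝ) m2
  have n3 := Submodule.smul_mem (OO ν 1) (-(1 / (2 * ν))) m3
  have n4 := Submodule.smul_mem (OO ν 1) (-(1 / (4 * ν))) m4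
  have a1 := Submodule.add_mem _ m1 n2
  have a2 := Submodule.add_mem _ a1 n3
  have a3 := Submodule.add_mem _ a2 n4
  have a4 := Submodule.add_mem _ a3 m5
  have eL : Lo ν (ww ν A V k) = ((((Lo ν T1 + (-2 : ℝ) • Lo ν T2) + (-(1 / (2 * ν))) • Lo ν T3)
      + (-(1 / (4 * ν))) • Lo ν T4) + Lo ν T5) + Lo ν r := by
    rw [hw, Lo_add h1 h2 a4 mr, Lo_add h1 h2 a3 m5, Lo_add h1 h2 a2 n4, Lo_add h1 h2 a1 n3,
      Lo_add h1 h2 m1 n2, Lo_smul h1 h2 m2, Lo_smul h1 h2 m3, Lo_smul h1 h2 m4]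
  have key : ((fun n t x => dtm (ww ν A V k) n t x - ν * (∑ j, dx j (dx j (ww ν A V k)) n t x))
    - Ts ν 2 0 3 1 (fun x => V x 2 * A x k) + (1 / 2 : ℝ) • Tc ν 2 0 2 2 (FA A k))
    = (((((-ν) • Tc ν 1 0 1 1 (lap fun x => A x k)
      + (4 * ν) • Tc ν 1 1 1 1 (pd 2 (pd 2 fun y => A y k)))
      + (2 * ν) • Ts ν 0 1 1 1 (lap (pd 2 fun y => A y k)))
      + Tc ν 1 0 3 1 (pd 2 (fun x => V x 2 * A x k)))
      + (1 / 2 : ℝ) • Ts ν 0 0 3 1 (lap (fun x => V x 2 * A x k)))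
      + (-1 : ℝ) • Ts ν 1 0 2 2 (pd 2 (FA A k))
      + (1 / 4 : ℝ) • Tc ν 0 0 2 2 (lap (FA A k))
      + (-(2 * ν)) • Tc ν 1 0 1 1 (pd 2 σ)
      + (-ν) • Ts ν 0 0 1 1 (lap σ) + Lo ν r := by
    change Lo ν (ww ν A V k) - Ts ν 2 0 3 1 (fun x => V x 2 * A x k)
      + (1 / 2 : ℝ) • Tc ν 2 0 2 2 (FA A k) = _
    rw [eL, hT1, hT2, hT3, hT4, hT5, Lo_Tc hL ν _ _ _ _ ca, Lo_Ts hL ν _ _ _ _ cp,
      Lo_Ts hL ν _ _ _ _ cv, Lo_Tc hL ν _ _ _ _ cf, Lo_Ts hL ν _ _ _ _ cs]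
    funext n t x
    simp only [Pi.add_apply, Pi.sub_apply, Pi.smul_apply, smul_eq_mul]
    generalize Lo ν r n t x = R
    norm_num
    field_simp
    ring
  rw [key]
  refine Submodule.add_mem _ (Submodule.add_mem _ (Submodule.add_mem _ (Submodule.add_mem _
    (Submodule.add_mem _ (Submodule.add_mem _ (Submodule.add_mem _ (Submodule.add_mem _
    (Submodule.add_mem _ ?_ ?_) ?_) ?_) ?_) ?_) ?_) ?_) ?_) hr'
  · exact Submodule.smul_mem _ _ (Tc_mem ν le_rfl 0 le_rfl 1 (cc_lap ca))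
  · exact Submodule.smul_mem _ _ (Tc_mem ν le_rfl 1 le_rfl 1 (cc_pd cp 2))
  · exact Submodule.smul_mem _ _ (Ts_mem ν (by norm_num) 1 le_rfl 1 (cc_lap cp))
  · exact Tc_mem ν le_rfl 0 (by norm_num) 1 (cc_pd cv 2)
  · exact Submodule.smul_mem _ _ (Ts_mem ν (by norm_num) 0 (by norm_num) 1 (cc_lap cv))
  · exact Submodule.smul_mem _ _ (Ts_mem ν le_rfl 0 (by norm_num) 2 (cc_pd cf 2))
  · exact Submodule.smul_mem _ _ (Tc_mem ν (by norm_num) 0 (by norm_num) 2 (cc_lap cf))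
  · exact Submodule.smul_mem _ _ (Tc_mem ν le_rfl 0 le_rfl 1 (cc_pd cs 2))
  · exact Submodule.smul_mem _ _ (Ts_mem ν (by norm_num) 0 le_rfl 1 (cc_lap cs))

end Run7.h495.AX
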