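import Pool.Agent.Run7.h495.AX.RS1

/-!
Project AX (MP_09540e_an), pieces RS2 (transport terms of the residual) and RES.
-/

set_option autoImplicit false

open MeasureTheory Set Filter Topology
open scoped ENNReal ContDiff FourierTransform

namespace Run7.h495.AX

open Pool.Agent.Run7.h148.AX

theorem dx_mem0 (h2 : S_OC2) {ν : ℝ} {p : ℤ} {f : Fam} (hf : f ∈ OO ν p) : dx 0 f ∈ OO ν p :=
  (h2 ν p f hf).2.2.1

theorem dx_mem1 (h2 : S_OC2) {ν : ℝ} {p : ℤ} {f : Fam} (hf : f ∈ OO ν p) : dx 1 f ∈ OO ν p :=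
  (h2 ν p f hf).2.2.2.1

/-- multiplication with `e^{-2τ} ψ` -/
noncomputable def mu (ν : ℝ) (ψ : E3 → ℝ) (f : Fam) : Fam := fun n t x =>
  Real.exp (-(2 * ta ν n t)) * ψ x * f n t x

theorem mu_mem (h3 : S_OC3) {ν : ℝ} {p : ℤ} {f : Fam} {ψ : E3 → ℝ} (hψ : ContDiff ℝ ∞ ψ)
    (hf : f ∈ OO ν p) : mu ν ψ f ∈ OO ν p := by
  have := h3 ν p f 2 ψ hψ hf
  have e : mu ν ψ f = (fun n t x => Real.exp (-(((2 : ℕ) : ℝ) * ta ν n t)) * ψ x * f n t x) := by
    funext n t x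
    simp only [mu]
    norm_num
  rw [e]
  exact this

theorem pd2_mul_cos {ρ : E3 → ℝ} (hρ : ContDiff ℝ ∞ ρ) (c d : ℝ) (x : E3) :
    pd 2 (fun y => c * ρ y * Real.cos (d * y 2)) x
      = c * pd 2 ρ x * Real.cos (d * x 2) - c * d * ρ x * Real.sin (d * x 2) := by
  have hd : DifferentiableAt ℝ ρ x := hρ.contDiffAt.differentiableAt (by simp)
  have h1 : HasFDerivAt (fun y : E3 => c * ρ y) (c • fderiv ℝ ρ x) x := hd.hasFDerivAt.const_mul c
  have h2 : HasFDerivAt (fun y : E3 => y 2) (EuclideanSpace.proj (2 : Fin 3) : E3 →L[ℝ] ℝ) x :=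
    (EuclideanSpace.proj (2 : Fin 3) : E3 →L[ℝ] ℝ).hasFDerivAt
  have h3 : HasFDerivAt (fun y : E3 => d * y 2)
    (d • (EuclideanSpace.proj (2 : Fin 3) : E3 →L[ℝ] ℝ)) x := h2.const_mul d
  have h4 := h3.cos
  have h5 := h1.mul h4
  unfold pd
  rw [show (fun y : E3 => c * ρ y * Real.cos (d * y 2))
    = (fun y => c * ρ y) * fun x : E3 => Real.cos (d * x 2) from rfl, h5.fderiv]
  simp
  ring

theorem dx2_Tc (ν : ℝ) (q : ℤ) (l j : ℕ) (k : ℤ) {ρ : E3 → ℝ} (h : ContDiff ℝ ∞ ρ) :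
    dx 2 (Tc ν q l j k ρ) = Tc ν q l j k (pd 2 ρ) - (k : ℝ) • Ts ν (q + 1) l j k ρ := by
  funext n t x
  have hN : NN n ≠ 0 := (NN_pos n).ne'
  have := pd2_mul_cos h (NN n ^ q * ta ν n t ^ l * Real.exp (-(j * ta ν n t))) (k * NN n) x
  simp only [Pi.sub_apply, Pi.smul_apply, smul_eq_mul]
  change pd 2 (fun y => NN n ^ q * ta ν n t ^ l * Real.exp (-(j * ta ν n t)) * ρ y
    * Real.cos (k * NN n * y 2)) x = _
  rw [this]
  simp only [Tc, Ts, zpow_add_one₀ hN]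
  ring

theorem t_RS2 (h1 : S_OC1) (h2 : S_OC2) (h3 : S_OC3) (hW : S_WST) : S_RS2 := by
  intro ν A V hν hAdm hV k
  have hWj : ∀ j : Fin 3, ww ν A V j - Tc ν 1 0 1 1 (fun x => A x j) ∈ OO ν 0 := by
    intro j
    have hW' := h1.1 ν (-1) 0 (by norm_num) (hW ν A V hν hAdm hV j)
    obtain ⟨hA, hcA, -, -⟩ := hAdm
    have ca : Cc (fun x => A x j) := cc_coord hA hcA j
    have cp : Cc (pd 2 fun y => A y j) := cc_pd ca 2
    have cv : Cc (fun x => V x 2 * A x j) := cc_mul_left (contDiff_coord hV 2) ca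
    have cf : Cc (FA A j) := cc_FA hA hcA j
    have cs : Cc (fun x => pd 2 (fun y => A y j) x - if j = 2 then dvA A x else 0) :=
      cc_sub cp (cc_ite (cc_dvA hA hcA) _)
    have n2 := Submodule.smul_mem (OO ν 0) (2 : ℝ) (Ts_mem ν le_rfl 1 le_rfl 1 cp)
    have n3 := Submodule.smul_mem (OO ν 0) (1 / (2 * ν)) (Ts_mem ν le_rfl 0 (by norm_num : 1 ≤ 3) 1 cv)
    have n4 := Submodule.smul_mem (OO ν 0) (1 / (4 * ν)) (Tc_mem ν le_rfl 0 (by norm_num : 1 ≤ 2) 2 cf)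
    have n5 := Ts_mem ν (le_refl (0 : ℤ)) 0 le_rfl 1 cs
    have := Submodule.sub_mem _ (Submodule.sub_mem _ (Submodule.sub_mem _
      (Submodule.add_mem _ hW' n5) n4) n3) n2
    convert this using 1
    abel
  have hwm : ∀ j : Fin 3, ww ν A V j ∈ OO ν 1 := by
    intro j
    have a := h1.1 ν 0 1 (by norm_num) (hWj j)
    have b : Tc ν 1 0 1 1 (fun x => A x j) ∈ OO ν 1 :=
      Tc_mem ν le_rfl 0 le_rfl 1 (cc_coord hAdm.1 hAdm.2.1 j)
    have := Submodule.add_mem _ a b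
    simpa using this
  obtain ⟨hA, hcA, -, -⟩ := hAdm
  have ca : Cc (fun x => A x k) := cc_coord hA hcA k
  set r := ww ν A V k - Tc ν 1 0 1 1 (fun x => A x k) with hr
  have mr : r ∈ OO ν 0 := hWj k
  have dr : dx 2 r ∈ OO ν 1 := by simpa using dx_mem h1 h2 mr 2
  have hT : Tc ν 1 0 1 1 (fun x => A x k) ∈ OO ν 1 := Tc_mem ν le_rfl 0 le_rfl 1 ca
  have ew : ww ν A V k = Tc ν 1 0 1 1 (fun x => A x k) + r := by rw [hr]; abel
  have e2 : dx 2 (ww ν A V k) = Tc ν 1 0 1 1 (pd 2 fun x => A x k)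
      - Ts ν 2 0 1 1 (fun x => A x k) + dx 2 r := by
    rw [ew, dx_add (sf_of_mem h2 hT) (sf_of_mem h2 mr), dx2_Tc ν 1 0 1 1 ca.1]
    simp
  have key : ((fun n t x => Real.exp (-(2 * ta ν n t)) * (∑ j, (V x j * dx j (ww ν A V k) n t x
        + ww ν A V j n t x * pd j (fun y => V y k) x)))
    + Ts ν 2 0 3 1 (fun x => V x 2 * A x k))
    = mu ν (fun x => V x 0) (dx 0 (ww ν A V k)) + mu ν (fun x => V x 1) (dx 1 (ww ν A V k))
      + mu ν (fun x => V x 2) (Tc ν 1 0 1 1 (pd 2 fun x => A x k))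
      + mu ν (fun x => V x 2) (dx 2 r)
      + mu ν (pd 0 fun y => V y k) (ww ν A V 0)
      + mu ν (pd 1 fun y => V y k) (ww ν A V 1)
      + mu ν (pd 2 fun y => V y k) (ww ν A V 2) := by
    funext n t x
    have e3 : Real.exp (-(3 * ta ν n t)) = Real.exp (-ta ν n t) * Real.exp (-(2 * ta ν n t)) := by
      rw [← Real.exp_add]; ring_nf
    have e2' := congrFun (congrFun (congrFun e2 n) t) x
    simp only [Pi.add_apply, Pi.sub_apply] at e2'
    simp only [Pi.add_apply, mu, Fin.sum_univ_three]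
    rw [e2']
    simp only [Tc, Ts]
    push_cast
    simp only [one_mul, e3]
    ring
  rw [key]
  refine Submodule.add_mem _ (Submodule.add_mem _ (Submodule.add_mem _
    (Submodule.add_mem _ (Submodule.add_mem _ (Submodule.add_mem _ ?_ ?_) ?_) ?_) ?_) ?_) ?_
  · exact mu_mem h3 (contDiff_coord hV 0) (dx_mem0 h2 (hwm k))
  · exact mu_mem h3 (contDiff_coord hV 1) (dx_mem1 h2 (hwm k))
  · exact mu_mem h3 (contDiff_coord hV 2) (Tc_mem ν le_rfl 0 le_rfl 1 (cc_pd ca 2))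
  · exact mu_mem h3 (contDiff_coord hV 2) dr
  · exact mu_mem h3 (contDiff_pd (contDiff_coord hV k) 0) (hwm 0)
  · exact mu_mem h3 (contDiff_pd (contDiff_coord hV k) 1) (hwm 1)
  · exact mu_mem h3 (contDiff_pd (contDiff_coord hV k) 2) (hwm 2)

theorem t_RES (r1 : S_RS1) (r2 : S_RS2) (r3 : S_RS3) (hW : S_WST) (h1 : S_OC1) : S_RES := by
  intro ν A V hν hAdm hV k
  constructor
  · have := Submodule.add_mem _ (Submodule.add_mem _ (r1 ν A V hν hAdm hV k)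
      (r2 ν A V hν hAdm hV k)) (r3 ν A V hν hAdm hV k)
    convert this using 1
    funext n t x
    simp only [Pi.add_apply, Pi.sub_apply, Pi.smul_apply, smul_eq_mul, Rw]
    ring
  · have hW' := h1.1 ν (-1) 1 (by norm_num) (hW ν A V hν hAdm hV k)
    obtain ⟨hA, hcA, -, -⟩ := hAdm
    have ca : Cc (fun x => A x k) := cc_coord hA hcA k
    have cp : Cc (pd 2 fun y => A y k) := cc_pd ca 2
    have cv : Cc (fun x => V x 2 * A x k) := cc_mul_left (contDiff_coord hV 2) ca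
    have cf : Cc (FA A k) := cc_FA hA hcA k
    have cs : Cc (fun x => pd 2 (fun y => A y k) x - if k = 2 then dvA A x else 0) :=
      cc_sub cp (cc_ite (cc_dvA hA hcA) _)
    have n1 := Tc_mem ν (le_refl (1 : ℤ)) 0 le_rfl 1 ca
    have n2 := Submodule.smul_mem (OO ν 1) (2 : ℝ) (Ts_mem ν (by norm_num : (0 : ℤ) ≤ 1) 1 le_rfl 1 cp)
    have n3 := Submodule.smul_mem (OO ν 1) (1 / (2 * ν))
      (Ts_mem ν (by norm_num : (0 : ℤ) ≤ 1) 0 (by norm_num : 1 ≤ 3) 1 cv)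
    have n4 := Submodule.smul_mem (OO ν 1) (1 / (4 * ν))
      (Tc_mem ν (by norm_num : (0 : ℤ) ≤ 1) 0 (by norm_num : 1 ≤ 2) 2 cf)
    have n5 := Ts_mem ν (by norm_num : (0 : ℤ) ≤ 1) 0 le_rfl 1 cs
    have := Submodule.add_mem _ (Submodule.sub_mem _ (Submodule.sub_mem _ (Submodule.sub_mem _
      (Submodule.add_mem _ hW' n5) n4) n3) n2) n1
    convert this using 1
    abel

end Run7.h495.AX
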